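import Pool.Agent.Helper20.QP.St3

/-!
# Project QD, part P, module FUL: fullness of the image annulus
-/

set_option autoImplicit false

open Filter Topology Matrix Set Metric MeasureTheory
open scoped ComplexConjugate ENNReal

namespace Pool.Agent.Helper80.QP

open Pool.Agent.Helper35.PM Pool.Agent.Helper20.QD Pool.Agent.Helper20.QP
open Pool.Agent.Helper68.QC (nq Bel InvB Intw Sol)
open Pool.Agent.Helper85.QT (HN)

private theorem Sab_open (a b : ℝ) : IsOpen (Sab a b) :=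
  (isOpen_lt continuous_const Complex.continuous_im).inter
    (isOpen_lt Complex.continuous_im continuous_const)

private theorem Sm_open (m : ℝ) : IsOpen (Sm m) :=
  (isOpen_lt continuous_const Complex.continuous_im).inter
    (isOpen_lt Complex.continuous_im continuous_const)

private theorem vol_rect (S₁ S₂ : Set ℝ) :
    volume {z : ℂ | z.re ∈ S₁ ∧ z.im ∈ S₂} = volume S₁ * volume S₂ := by
  have h1 : {z : ℂ | z.re ∈ S₁ ∧ z.im ∈ S₂} = Complex.measurableEquivRealProd ⁻¹' (S₁ ×ˢ S₂) := by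
    ext z
    rfl
  rw [h1, Complex.volume_preserving_equiv_real_prod.measure_preimage_equiv, Measure.volume_eq_prod,
    Measure.prod_prod]

private theorem meas_rect {S₁ S₂ : Set ℝ} (h₁ : MeasurableSet S₁) (h₂ : MeasurableSet S₂) :
    MeasurableSet {z : ℂ | z.re ∈ S₁ ∧ z.im ∈ S₂} :=
  (Complex.measurable_re h₁).inter (Complex.measurable_im h₂)

private theorem cover_le {ι : Type} [Countable ι] (c : ι → ℂ) {P T : Set ℂ} (hP : MeasurableSet P)
    (hT : MeasurableSet T) (hcov : ∀ z ∈ P, ∃ i, z + c i ∈ T)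
    (hdis : ∀ i j, i ≠ j → Disjoint ((fun z : ℂ => z + c i) '' P) ((fun z : ℂ => z + c j) '' P)) :
    volume P ≤ volume T := by
  calc volume P ≤ volume (⋃ i, (fun z : ℂ => z + c i) ⁻¹' (((fun z : ℂ => z + c i) '' P) ∩ T)) := by
        refine measure_mono fun z hz => ?_
        obtain ⟨i, hi⟩ := hcov z hz
        exact mem_iUnion.2 ⟨i, ⟨z, hz, rfl⟩, hi⟩
    _ ≤ ∑' i, volume ((fun z : ℂ => z + c i) ⁻¹' (((fun z : ℂ => z + c i) '' P) ∩ T)) :=
        measure_iUnion_le _
    _ = ∑' i, volume (((fun z : ℂ => z + c i) '' P) ∩ T) :=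
        tsum_congr fun i => measure_preimage_add_right _ _ _
    _ = volume (⋃ i, ((fun z : ℂ => z + c i) '' P) ∩ T) := by
        refine (measure_iUnion ?_ ?_).symm
        · intro i j hij
          exact (hdis i j hij).mono inter_subset_left inter_subset_left
        · intro i
          refine MeasurableSet.inter ?_ hT
          rw [Set.image_add_right]
          exact (measurable_add_const (-c i)) hP
    _ ≤ volume T := measure_mono (iUnion_subset fun i => inter_subset_right)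

/-- the inverse of a strip coordinate -/
private theorem sc_inv {A : SL} {l : ℝ} {q : ℂ → ℂ} (h : SC A l q) :
    ∃ g : ℂ → ℂ, DifferentiableOn ℂ g D ∧
      (∀ z ∈ D, g z ∈ Sm (Real.pi / l) ∧ q (g z) = z) ∧
      (∀ w ∈ Sm (Real.pi / l), g (q w) = w) := by
  have hl := h.l0
  have hinv := h.bij.invOn_invFunOn
  have hmaps := h.bij.surjOn.mapsTo_invFunOn
  set g : ℂ → ℂ := Function.invFunOn q (Sm (Real.pi / l)) with hg
  have hd0 : ∀ w ∈ Sm (Real.pi / l), deriv q w ≠ 0 := by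
    intro w hw h0
    have h1 := h.den w hw
    rw [h0, norm_zero, zero_mul, zero_div] at h1
    have h2 : 0 < Real.sin (l * w.im) := by
      refine Real.sin_pos_of_pos_of_lt_pi (mul_pos hl hw.1) ?_
      have h3 := (lt_div_iff₀ hl).1 hw.2
      linarith
    have h3 : 0 < l / Real.sin (l * w.im) := div_pos hl h2
    linarith
  refine ⟨g, ?_, ?_, ?_⟩
  · intro z hz
    have hw : g z ∈ Sm (Real.pi / l) := hmaps hz
    have hqz : q (g z) = z := hinv.2 hz
    have hst : HasStrictDerivAt q (deriv q (g z)) (g z) :=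
      (h.hol.analyticAt ((Sm_open _).mem_nhds hw)).hasStrictDerivAt
    have hmap := hst.map_nhds_eq (hd0 _ hw)
    rw [hqz] at hmap
    have hcont : ContinuousAt g z := by
      intro N hN
      have h1 : N ∩ Sm (Real.pi / l) ∈ 𝓝 (g z) := inter_mem hN ((Sm_open _).mem_nhds hw)
      have h2 : q '' (N ∩ Sm (Real.pi / l)) ∈ 𝓝 z := by
        rw [← hmap]
        exact image_mem_map h1
      show g ⁻¹' N ∈ 𝓝 z
      filter_upwards [h2]
      rintro _ ⟨w, hw, rfl⟩
      show g (q w) ∈ N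
      rw [hinv.1 hw.2]
      exact hw.1
    have hder : HasDerivAt g (deriv q (g z))⁻¹ z := by
      refine HasDerivAt.of_local_left_inverse hcont hst.hasDerivAt (hd0 _ hw) ?_
      filter_upwards [isOpen_ball.mem_nhds hz] with y hy
      exact hinv.2 hy
    exact hder.differentiableAt.differentiableWithinAt
  · intro z hz
    exact ⟨hmaps hz, hinv.2 hz⟩
  · intro w hw
    exact hinv.1 hw

private theorem im_add_int (w : ℂ) (k : ℤ) : (w + (k : ℂ)).im = w.im := by simp

private theorem per_int {R : Set ℂ} {f : ℂ → ℂ} (hR : ∀ w ∈ R, ∀ k : ℤ, w + (k : ℂ) ∈ R)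
    (hf : ∀ w ∈ R, f (w + 1) = f w + 1) {w : ℂ} (hw : w ∈ R) (k : ℤ) :
    f (w + k) = f w + k := by
  induction k using Int.induction_on with
  | zero => simp
  | succ i ih =>
    have h1 := hf _ (hR w hw (i : ℤ))
    rw [ih] at h1
    push_cast at h1 ⊢
    rw [← add_assoc, h1]
    ring
  | pred i ih =>
    have h1 := hf _ (hR w hw (-(i : ℤ) - 1))
    have h2 : w + ((-(i : ℤ) - 1 : ℤ) : ℂ) + 1 = w + ((-(i : ℤ) : ℤ) : ℂ) := by
      push_cast
      ring
    rw [h2, ih] at h1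
    have h3 : f (w + ((-(i : ℤ) - 1 : ℤ) : ℂ)) = f w + ((-(i : ℤ) : ℤ) : ℂ) - 1 := by
      rw [h1]
      ring
    rw [h3]
    push_cast
    ring

/-- one strip -/
private theorem strip (hN3a : ∀ (m : ℝ) (f : ℂ → ℂ), 0 < m → HN m f →
    ENNReal.ofReal m ≤ volume (f '' {w : ℂ | w ∈ Pool.Agent.Helper85.QT.Sm m ∧ 0 < w.re ∧ w.re < 1}))
    {x y : ℝ} {ψ : ℂ → ℂ} (hxy : x < y) (hdif : DifferentiableOn ℂ ψ (Sab x y))
    (hinj : InjOn ψ (Sab x y)) (hper : ∀ w ∈ Sab x y, ψ (w + 1) = ψ w + 1) :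
    ENNReal.ofReal (y - x) ≤ volume (ψ '' {w : ℂ | w ∈ Sab x y ∧ 0 < w.re ∧ w.re < 1}) := by
  have him : ∀ ζ : ℂ, (ζ + (x : ℂ) * Complex.I).im = ζ.im + x := by
    intro ζ
    simp
  have hre : ∀ ζ : ℂ, (ζ + (x : ℂ) * Complex.I).re = ζ.re := by
    intro ζ
    simp
  have hmem : ∀ ζ ∈ Pool.Agent.Helper85.QT.Sm (y - x), ζ + (x : ℂ) * Complex.I ∈ Sab x y := by
    intro ζ hζ
    have h1 : 0 < ζ.im := hζ.1
    have h2 : ζ.im < y - x := hζ.2
    exact ⟨by rw [him]; linarith, by rw [him]; linarith⟩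
  have hHN : HN (y - x) (fun ζ => ψ (ζ + (x : ℂ) * Complex.I)) := by
    refine ⟨?_, ?_, ?_⟩
    · exact hdif.comp (by fun_prop) hmem
    · intro u hu v hv huv
      exact add_right_cancel (hinj (hmem u hu) (hmem v hv) huv)
    · intro w hw
      have h1 := hper _ (hmem w hw)
      show ψ (w + 1 + (x : ℂ) * Complex.I) = ψ (w + (x : ℂ) * Complex.I) + 1
      rw [← h1]
      congr 1
      ring
  refine (hN3a (y - x) _ (by linarith) hHN).trans (measure_mono ?_)
  rintro _ ⟨ζ, hζ, rfl⟩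
  exact ⟨ζ + (x : ℂ) * Complex.I, ⟨hmem ζ hζ.1, by rw [hre]; exact hζ.2.1, by rw [hre]; exact hζ.2.2⟩, rfl⟩

private theorem pack (hN3a : ∀ (m : ℝ) (f : ℂ → ℂ), 0 < m → HN m f →
    ENNReal.ofReal m ≤ volume (f '' {w : ℂ | w ∈ Pool.Agent.Helper85.QT.Sm m ∧ 0 < w.re ∧ w.re < 1}))
    {M x1 y1 x2 y2 a0 a1 : ℝ} {ψ : ℂ → ℂ} (h1 : x1 < y1) (h12 : y1 ≤ x2) (h2 : x2 < y2)
    (ha0 : 0 ≤ a0) (ha : a0 ≤ a1) (ha1 : a1 ≤ M)
    (hdif : DifferentiableOn ℂ ψ (Sab x1 y1 ∪ Sab x2 y2)) (hinj : InjOn ψ (Sab x1 y1 ∪ Sab x2 y2))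
    (hper : ∀ w ∈ Sab x1 y1 ∪ Sab x2 y2, ψ (w + 1) = ψ w + 1)
    (hmaps : MapsTo ψ (Sab x1 y1 ∪ Sab x2 y2) (Sm M))
    (havoid : ∀ w ∈ Sab x1 y1 ∪ Sab x2 y2, ¬ (a0 ≤ (ψ w).im ∧ (ψ w).im ≤ a1)) :
    (y1 - x1) + (y2 - x2) + (a1 - a0) ≤ M := by
  have hM : 0 ≤ M := by linarith
  set R : Set ℂ := Sab x1 y1 ∪ Sab x2 y2 with hR
  have hRint : ∀ w ∈ R, ∀ k : ℤ, w + (k : ℂ) ∈ R := by
    intro w hw k
    rcases hw with hw | hw
    · exact Or.inl ⟨by rw [im_add_int]; exact hw.1, by rw [im_add_int]; exact hw.2⟩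
    · exact Or.inr ⟨by rw [im_add_int]; exact hw.1, by rw [im_add_int]; exact hw.2⟩
  have hmeasS : ∀ x y : ℝ, MeasurableSet {w : ℂ | w ∈ Sab x y ∧ 0 < w.re ∧ w.re < 1} := by
    intro x y
    refine (Sab_open x y).measurableSet.inter ?_
    exact (Complex.measurable_re measurableSet_Ioi).inter (Complex.measurable_re measurableSet_Iio)
  set P1 : Set ℂ := ψ '' {w : ℂ | w ∈ Sab x1 y1 ∧ 0 < w.re ∧ w.re < 1} with hP1
  set P2 : Set ℂ := ψ '' {w : ℂ | w ∈ Sab x2 y2 ∧ 0 < w.re ∧ w.re < 1} with hP2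
  set P3 : Set ℂ := {z : ℂ | z.re ∈ Ioo (0 : ℝ) 1 ∧ z.im ∈ Ioo a0 a1} with hP3
  have hs1 : {w : ℂ | w ∈ Sab x1 y1 ∧ 0 < w.re ∧ w.re < 1} ⊆ R := fun w hw => Or.inl hw.1
  have hs2 : {w : ℂ | w ∈ Sab x2 y2 ∧ 0 < w.re ∧ w.re < 1} ⊆ R := fun w hw => Or.inr hw.1
  have m1 : MeasurableSet P1 :=
    (hmeasS x1 y1).image_of_continuousOn_injOn (hdif.continuousOn.mono hs1) (hinj.mono hs1)
  have m2 : MeasurableSet P2 :=
    (hmeasS x2 y2).image_of_continuousOn_injOn (hdif.continuousOn.mono hs2) (hinj.mono hs2)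
  have m3 : MeasurableSet P3 := meas_rect measurableSet_Ioo measurableSet_Ioo
  have d12 : Disjoint P1 P2 := by
    rw [Set.disjoint_left]
    rintro _ ⟨w, hw, rfl⟩ ⟨w', hw', he⟩
    have h3 := hinj (hs2 hw') (hs1 hw) he
    rw [h3] at hw'
    have h4 : w.im < y1 := hw.1.2
    have h5 : x2 < w.im := hw'.1.1
    linarith
  have hP12 : ∀ z ∈ P1 ∪ P2, ∃ w ∈ R, 0 < w.re ∧ w.re < 1 ∧ ψ w = z := by
    rintro z (⟨w, hw, rfl⟩ | ⟨w, hw, rfl⟩)
    · exact ⟨w, hs1 hw, hw.2.1, hw.2.2, rfl⟩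
    · exact ⟨w, hs2 hw, hw.2.1, hw.2.2, rfl⟩
  have d123 : Disjoint (P1 ∪ P2) P3 := by
    rw [Set.disjoint_left]
    intro z hz hz3
    obtain ⟨w, hw, -, -, rfl⟩ := hP12 z hz
    exact havoid w hw ⟨hz3.2.1.le, hz3.2.2.le⟩
  have v1 := strip hN3a h1 (hdif.mono subset_union_left) (hinj.mono subset_union_left)
    (fun w hw => hper w (Or.inl hw))
  have v2 := strip hN3a h2 (hdif.mono subset_union_right) (hinj.mono subset_union_right)
    (fun w hw => hper w (Or.inr hw))
  have v3 : volume P3 = ENNReal.ofReal (a1 - a0) := by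
    rw [hP3, vol_rect, Real.volume_Ioo, Real.volume_Ioo, sub_zero, ENNReal.ofReal_one, one_mul]
  have vtot : volume ((P1 ∪ P2) ∪ P3) = volume P1 + volume P2 + volume P3 := by
    rw [measure_union d123 m3, measure_union d12 m2]
  have hup := cover_le (ι := ℤ) (fun n => (n : ℂ)) ((m1.union m2).union m3)
    (meas_rect (measurableSet_Ico (a := (0 : ℝ)) (b := 1)) (measurableSet_Icc (a := (0 : ℝ)) (b := M))) (by
      intro z hz
      have hzM : z.im ∈ Icc 0 M := by
        rcases hz with hz | hz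
        · obtain ⟨w, hw, -, -, rfl⟩ := hP12 z hz
          have h3 := hmaps hw
          exact ⟨h3.1.le, h3.2.le⟩
        · exact ⟨ha0.trans hz.2.1.le, hz.2.2.le.trans ha1⟩
      refine ⟨-⌊z.re⌋, ?_, ?_⟩
      · have h4 : (z + ((-⌊z.re⌋ : ℤ) : ℂ)).re = z.re - ⌊z.re⌋ := by
          rw [Complex.add_re, Complex.intCast_re]
          push_cast
          ring
        rw [h4]
        exact ⟨by linarith [Int.floor_le z.re], by linarith [Int.lt_floor_add_one z.re]⟩
      · rw [im_add_int]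
        exact hzM) (by
      intro n n' hne
      rw [Set.disjoint_left]
      rintro _ ⟨x, hx, rfl⟩ ⟨y, hy, he⟩
      simp only at he
      have hint : ∀ r s : ℝ, 0 < r → r < 1 → 0 < s → s < 1 → s + (n' - n : ℤ) = r → False := by
        intro r s hr0 hr1 hs0 hs1 h
        have h6 : ((n' - n : ℤ) : ℝ) < 1 := by linarith
        have h7 : (-1 : ℝ) < ((n' - n : ℤ) : ℝ) := by linarith
        have h8 : n' - n < 1 := by exact_mod_cast h6
        have h9 : -1 < n' - n := by exact_mod_cast h7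
        omega
      have himxy : y.im = x.im := by
        have := congrArg Complex.im he
        rwa [im_add_int, im_add_int] at this
      rcases hx with hx | hx
      · obtain ⟨w, hw, hw0, hw1, rfl⟩ := hP12 x hx
        rcases hy with hy | hy
        · obtain ⟨w', hw', hw0', hw1', rfl⟩ := hP12 y hy
          have h3 : ψ (w' + ((n' - n : ℤ) : ℂ)) = ψ w := by
            rw [per_int hRint hper hw']
            push_cast
            linear_combination he
          have h5 := congrArg Complex.re (hinj (hRint w' hw' _) hw h3)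
          rw [Complex.add_re, Complex.intCast_re] at h5
          exact hint _ _ hw0 hw1 hw0' hw1' h5
        · exact havoid w hw ⟨by rw [← himxy]; exact hy.2.1.le, by rw [← himxy]; exact hy.2.2.le⟩
      · rcases hy with hy | hy
        · obtain ⟨w', hw', hw0', hw1', rfl⟩ := hP12 y hy
          exact havoid w' hw' ⟨by rw [himxy]; exact hx.2.1.le, by rw [himxy]; exact hx.2.2.le⟩
        · have h5 := congrArg Complex.re he
          rw [Complex.add_re, Complex.add_re, Complex.intCast_re, Complex.intCast_re] at h5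
          refine hint x.re y.re hx.1.1 hx.1.2 hy.1.1 hy.1.2 ?_
          push_cast
          linarith)
  rw [vol_rect, Real.volume_Ico, Real.volume_Icc, sub_zero, sub_zero, ENNReal.ofReal_one, one_mul,
    vtot, v3] at hup
  have hfin : ENNReal.ofReal ((y1 - x1) + (y2 - x2) + (a1 - a0)) ≤ ENNReal.ofReal M := by
    rw [ENNReal.ofReal_add (by linarith) (by linarith), ENNReal.ofReal_add (by linarith) (by linarith)]
    exact (add_le_add (add_le_add v1 v2) le_rfl).trans hup
  exact (ENNReal.ofReal_le_ofReal_iff hM).1 hfin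

private theorem hf_nonneg {t : ℂ} (ht : ‖t‖ < 1) : 0 ≤ hf t := by
  unfold hf
  rw [Complex.div_re]
  have h1 : Complex.normSq t < 1 := by
    rw [Complex.normSq_eq_norm_sq]
    nlinarith [norm_nonneg t]
  rw [Complex.normSq_apply] at h1
  have h2 : 0 ≤ Complex.normSq (1 + t) := Complex.normSq_nonneg _
  rw [← add_div]
  refine div_nonneg ?_ h2
  simp only [Complex.sub_re, Complex.one_re, Complex.add_re, Complex.sub_im, Complex.one_im,
    Complex.add_im]
  nlinarith

private theorem LT_im {t : ℂ} (ht : ‖t‖ < 1) (w : ℂ) : (LT t w).im = hf t * w.im := by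
  have h1 : 1 + t ≠ 0 := by
    intro h
    have : t = -1 := by linear_combination h
    rw [this] at ht
    simp at ht
  have h2 : LT t w = (w.re : ℂ) + ((1 - t) / (1 + t)) * ((w.im : ℂ) * Complex.I) := by
    unfold Pool.Agent.Helper20.QP.LT
    have hw : w = (w.re : ℂ) + (w.im : ℂ) * Complex.I := (Complex.re_add_im w).symm
    have hwc : conj w = (w.re : ℂ) - (w.im : ℂ) * Complex.I := by
      conv_lhs => rw [hw]
      rw [map_add, map_mul, Complex.conj_ofReal, Complex.conj_ofReal, Complex.conj_I]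
      ring
    rw [hwc]
    conv_lhs => rw [hw]
    simp only [Complex.add_re, Complex.ofReal_re, Complex.mul_re, Complex.I_re, mul_zero,
      Complex.ofReal_im, Complex.I_im, mul_one, sub_self, add_zero, Complex.add_im, Complex.mul_im,
      zero_add]
    field_simp
    ring
  rw [h2]
  unfold hf
  simp [Complex.add_im, Complex.mul_im]

theorem hFUL (hSUB : StSUB) (hCOL : StCOL) (hTHN2 : StTHN2) (hTHN3 : StTHN3) : StFUL := by
  obtain ⟨C, c, hC, -, hN2⟩ := hTHN2
  obtain ⟨hN3a, hN3b, -⟩ := hTHN3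
  obtain ⟨s1, -, -, s4, -, -⟩ := hSUB
  refine ⟨67 + 2 * C, 128 + 2 * C + 2 * (64 + (67 + 2 * C)), by linarith, by linarith, ?_⟩
  intro Γ _ σ σ' α l l' k1 q q' μs φ t hTF hF hF' hPrim hSC hSC' hl hh ht hBel hk1 hInt hD hsymm hHN
    hmaps hrel
  have hVdef : ∃ V : ℝ, V = 67 + 2 * C := ⟨_, rfl⟩
  obtain ⟨V, hV⟩ := hVdef
  rw [← hV] at hh hsymm hHN hmaps hrel ⊢
  have hη0 := mul_nonneg hh.le (hf_nonneg ht)
  have hηdef : ∃ η : ℝ, η = (Real.pi / l - 2 * (64 + V)) * hf t := ⟨_, rfl⟩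
  obtain ⟨η, hη⟩ := hηdef
  rw [← hη] at hη0 hHN hmaps ⊢
  have hl'0 := hSC'.l0
  have hl0 := hSC.l0
  -- the translation number
  obtain ⟨-, κ, hκ, -⟩ := hN2 (η + 2 * V) φ (by linarith) hHN
  have hdd : ∀ w : ℂ, 2 ≤ w.im → w.im ≤ η + 2 * V - 2 → ‖φ w - w - κ‖ ≤ C := by
    intro w h1 h2
    refine hκ w ?_
    unfold Pool.Agent.Helper85.QT.dd
    exact le_min h1 (by linarith)
  have himle : ∀ w : ℂ, 2 ≤ w.im → w.im ≤ η + 2 * V - 2 →
      w.im + κ.im - C ≤ (φ w).im ∧ (φ w).im ≤ w.im + κ.im + C := by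
    intro w h1 h2
    have h3 := (Complex.abs_im_le_norm (φ w - w - κ)).trans (hdd w h1 h2)
    rw [Complex.sub_im, Complex.sub_im, abs_le] at h3
    exact ⟨by linarith [h3.1], by linarith [h3.2]⟩
  have hM'def : ∃ M' : ℝ, M' = Real.pi / l' := ⟨_, rfl⟩
  obtain ⟨M', hM'⟩ := hM'def
  have hκ1 : -2 - C < κ.im := by
    have h1 : ((2 : ℂ) * Complex.I).im = 2 := by simp
    have h2 := (himle ((2 : ℂ) * Complex.I) (by rw [h1]) (by rw [h1]; linarith)).2
    have h3 : (2 : ℂ) * Complex.I ∈ Sm (η + 2 * V) := ⟨by rw [h1]; norm_num, by rw [h1]; linarith⟩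
    have h4 : 0 < (φ ((2 : ℂ) * Complex.I)).im := (hmaps h3).1
    rw [h1] at h2
    linarith
  have hκ2 : κ.im < M' - (η + 2 * V) + 2 + C := by
    have h1 : (((η + 2 * V - 2 : ℝ) : ℂ) * Complex.I).im = η + 2 * V - 2 := by simp
    have h2 := (himle (((η + 2 * V - 2 : ℝ) : ℂ) * Complex.I) (by rw [h1]; linarith) (by rw [h1])).1
    have h3 : ((η + 2 * V - 2 : ℝ) : ℂ) * Complex.I ∈ Sm (η + 2 * V) :=
      ⟨by rw [h1]; linarith, by rw [h1]; linarith⟩
    have h4 : (φ (((η + 2 * V - 2 : ℝ) : ℂ) * Complex.I)).im < Real.pi / l' := (hmaps h3).2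
    rw [h1] at h2
    rw [hM']
    linarith
  have hm1 : η + 2 * V ≤ M' := by
    rw [hM']
    exact hN3b (η + 2 * V) (Real.pi / l') φ (by linarith) hHN hmaps
  have hl' : l' ≤ 1 := by
    by_contra h
    rw [not_le] at h
    have h1 : Real.pi / l' < Real.pi := div_lt_self Real.pi_pos h
    have h2 := Real.pi_lt_four
    rw [← hM'] at h1
    linarith
  -- the two levels
  have hb1 : 64 < V + κ.im - C := by linarith
  have hb2 : V + η + κ.im + C < M' - 64 := by linarith
  have hlast : ∀ w : ℂ, V ≤ w.im → w.im ≤ V + η →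
      V + κ.im - C ≤ (φ w).im ∧ (φ w).im ≤ V + η + κ.im + C := by
    intro w h1 h2
    obtain ⟨h3, h4⟩ := himle w (by linarith) (by linarith)
    exact ⟨by linarith, by linarith⟩
  -- the middle part
  have hmid : ∀ w : ℂ, 64 + V ≤ w.im → w.im ≤ Real.pi / l - (64 + V) →
      ∃ u : ℂ, V + κ.im - C ≤ u.im ∧ u.im ≤ V + η + κ.im + C ∧ nq μs (q w) = q' u := by
    intro w h1 h2
    refine ⟨φ (LE t (64 + V) (Real.pi / l - 2 * (64 + V)) w - 64 * Complex.I), ?_, ?_,
      hrel w ⟨by linarith, by linarith⟩⟩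
    all_goals
      have h3 : (LE t (64 + V) (Real.pi / l - 2 * (64 + V)) w - 64 * Complex.I).im =
          V + hf t * (w.im - (64 + V)) := by
        unfold Pool.Agent.Helper20.QP.LE
        split_ifs with c1 c2
        · have h5 : w.im = 64 + V := le_antisymm c1 h1
          simp [h5]
        · have h6 := LT_im ht (w - ((64 + V : ℝ) : ℂ) * Complex.I)
          rw [Complex.sub_im, Complex.add_im, h6]
          simp
          ring
        · exfalso
          apply c2
          linarith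
      have h4 : 0 ≤ hf t * (w.im - (64 + V)) := mul_nonneg (hf_nonneg ht) (by linarith)
      have h5 : hf t * (w.im - (64 + V)) ≤ η := by
        rw [hη, mul_comm]
        exact mul_le_mul_of_nonneg_right (by linarith) (hf_nonneg ht)
      have h6 := hlast _ (by rw [h3]; linarith) (by rw [h3]; linarith)
    · exact h6.1
    · exact h6.2
  have hcol := (hCOL Γ σ' hF' hTF α α l' l' q' q' hPrim hPrim hSC' hSC' hl' hl').1
  -- powers of alpha
  have hpow : ∀ n : ℤ, ∀ u ∈ Sm (Real.pi / l'), mob (σ' (α ^ n)) (q' u) = q' (u + n) := by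
    have hR : ∀ w ∈ Sm (Real.pi / l'), ∀ k : ℤ, w + (k : ℂ) ∈ Sm (Real.pi / l') := by
      intro w hw k
      exact ⟨by rw [im_add_int]; exact hw.1, by rw [im_add_int]; exact hw.2⟩
    have hqD : ∀ w ∈ Sm (Real.pi / l'), q' w ∈ DD := fun w hw =>
      ball_subset_closedBall (hSC'.bij.mapsTo hw)
    have hdn : ∀ γ : Γ, ∀ w ∈ Sm (Real.pi / l'), den (σ' γ) (q' w) ≠ 0 := fun γ w hw =>
      (s1 _ (hF'.su γ)).2.1 _ (hqD w hw)
    intro n
    induction n using Int.induction_on with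
    | zero =>
      intro u hu
      rw [zpow_zero, map_one]
      simp [mob]
    | succ i ih =>
      intro u hu
      have h1 := ih _ (hR u hu 1)
      have h2 : α ^ ((i : ℤ) + 1) = α ^ (i : ℤ) * α := zpow_add_one α i
      rw [h2, map_mul, (s4 _ _ _ (hdn α u hu)).1, ← hSC'.per u hu]
      have h3 : u + 1 = u + ((1 : ℤ) : ℂ) := by simp
      rw [h3, h1]
      congr 1
      push_cast
      ring
    | pred i ih =>
      intro u hu
      have h1 := ih _ (hR u hu (-1))
      have h2 : α ^ (-(i : ℤ) - 1) = α ^ (-(i : ℤ)) * α⁻¹ := zpow_sub_one α _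
      have hu' := hR u hu (-1)
      have h3 : q' u = mob (σ' α) (q' (u + ((-1 : ℤ) : ℂ))) := by
        rw [← hSC'.per _ hu']
        congr 1
        push_cast
        ring
      have h4 : mob (σ' α⁻¹) (q' u) = q' (u + ((-1 : ℤ) : ℂ)) := by
        rw [h3, map_inv]
        exact (s1 _ (hF'.su α)).2.2.2.2 _ (hqD _ hu')
      rw [h2, map_mul, (s4 _ _ _ (hdn α⁻¹ u hu)).1, h4, h1]
      congr 1
      push_cast
      ring
  have hclaim : ∀ w' ∈ Sab 64 (V + κ.im - C) ∪ Sab (V + η + κ.im + C) (M' - 64), ∀ γ : Γ, ∀ w : ℂ,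
      64 + V ≤ w.im → w.im ≤ Real.pi / l - (64 + V) → q' w' ≠ mob (σ' γ) (nq μs (q w)) := by
    intro w' hw' γ w h1 h2 he
    obtain ⟨u, hu1, hu2, hu3⟩ := hmid w h1 h2
    rw [hu3] at he
    have hw'64 : w' ∈ Sab 64 (Real.pi / l' - 64) := by
      rw [← hM']
      rcases hw' with hw' | hw'
      · exact ⟨hw'.1, hw'.2.trans (by linarith)⟩
      · exact ⟨lt_trans (by linarith) hw'.1, hw'.2⟩
    have hu64 : u ∈ Sab 64 (Real.pi / l' - 64) := by
      rw [← hM']
      exact ⟨by linarith, by linarith⟩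
    by_cases hγ : ∃ n : ℤ, γ = α ^ n
    · obtain ⟨n, rfl⟩ := hγ
      have huS : u ∈ Sm (Real.pi / l') := ⟨by linarith [hu64.1], by linarith [hu64.2]⟩
      have hwS : w' ∈ Sm (Real.pi / l') := ⟨by linarith [hw'64.1], by linarith [hw'64.2]⟩
      rw [hpow n u huS] at he
      have huS' : u + (n : ℂ) ∈ Sm (Real.pi / l') :=
        ⟨by rw [im_add_int]; exact huS.1, by rw [im_add_int]; exact huS.2⟩
      have h3 := congrArg Complex.im (hSC'.bij.injOn hwS huS' he)
      rw [im_add_int] at h3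
      rcases hw' with hw' | hw'
      · have := hw'.2
        linarith
      · have := hw'.1
        linarith
    · have h3 := hcol γ (fun n hn => hγ ⟨n, hn⟩)
      rw [Set.disjoint_left] at h3
      exact h3 ⟨q' u, ⟨u, hu64, rfl⟩, he.symm⟩ ⟨w', hw'64, rfl⟩
  -- the inverse map
  obtain ⟨g, hg1, hg2, hg3⟩ := sc_inv hSC
  have hwS' : ∀ w' ∈ Sab 64 (V + κ.im - C) ∪ Sab (V + η + κ.im + C) (M' - 64),
      w' ∈ Sm (Real.pi / l') := by
    intro w' hw'
    rw [← hM']
    rcases hw' with hw' | hw'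
    · exact ⟨lt_trans (by norm_num) hw'.1, hw'.2.trans (by linarith)⟩
    · exact ⟨lt_trans (by linarith) hw'.1, hw'.2.trans (by linarith)⟩
  have hq'D : ∀ w' ∈ Sab 64 (V + κ.im - C) ∪ Sab (V + η + κ.im + C) (M' - 64), q' w' ∈ D :=
    fun w' hw' => hSC'.bij.mapsTo (hwS' w' hw')
  have hHD : ∀ z ∈ D, (nq μs).symm z ∈ D := by
    intro z hz
    rw [mem_ball, dist_zero_right] at hz ⊢
    rw [← hD, Homeomorph.apply_symm_apply]
    exact hz
  have hfinal := pack hN3a (M := Real.pi / l) (x1 := 64) (y1 := V + κ.im - C)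
    (x2 := V + η + κ.im + C) (y2 := M' - 64) (a0 := 64 + V) (a1 := Real.pi / l - (64 + V))
    (ψ := fun w => g ((nq μs).symm (q' w))) hb1 (by linarith) hb2 (by linarith) (by linarith)
    (by linarith) (by
      have h1 : DifferentiableOn ℂ (fun w => (nq μs).symm (q' w))
          (Sab 64 (V + κ.im - C) ∪ Sab (V + η + κ.im + C) (M' - 64)) := by
        refine hsymm.comp (hSC'.hol.mono hwS') ?_
        intro w' hw'
        refine ⟨hq'D w' hw', ?_⟩
        intro hcon
        obtain ⟨γ, hγ⟩ := mem_iUnion.1 hcon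
        obtain ⟨_, ⟨_, ⟨w, hw, rfl⟩, rfl⟩, he⟩ := hγ
        exact hclaim w' hw' γ w hw.1 hw.2 he.symm
      exact hg1.comp h1 fun w' hw' => hHD _ (hq'D w' hw')) (by
      intro u hu v hv huv
      have h1 : (nq μs).symm (q' u) = (nq μs).symm (q' v) := by
        rw [← (hg2 _ (hHD _ (hq'D u hu))).2, ← (hg2 _ (hHD _ (hq'D v hv))).2]
        exact congrArg q huv
      have h2 := (nq μs).symm.injective h1
      exact hSC'.bij.injOn (hwS' u hu) (hwS' v hv) h2) (by
      intro w hw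
      have hz : (nq μs).symm (q' w) ∈ D := hHD _ (hq'D w hw)
      have hdz : den (σ α) ((nq μs).symm (q' w)) ≠ 0 :=
        (s1 _ (hF.su α)).2.1 _ (ball_subset_closedBall hz)
      have h1 : nq μs (mob (σ α) ((nq μs).symm (q' w))) = mob (σ' α) (q' w) := by
        have h2 := (hInt α).2.1 ((nq μs).symm (q' w)) hdz
        rw [Homeomorph.apply_symm_apply] at h2
        exact h2
      have h2 : (nq μs).symm (q' (w + 1)) = mob (σ α) ((nq μs).symm (q' w)) := by
        rw [hSC'.per w (hwS' w hw), ← h1, Homeomorph.symm_apply_apply]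
      show g ((nq μs).symm (q' (w + 1))) = g ((nq μs).symm (q' w)) + 1
      obtain ⟨h3, h4⟩ := hg2 _ hz
      have h5 := hSC.per _ h3
      rw [h4] at h5
      rw [h2, ← h5]
      refine hg3 _ ?_
      have h6 : (g ((nq μs).symm (q' w)) + 1).im = (g ((nq μs).symm (q' w))).im := by simp
      exact ⟨by rw [h6]; exact h3.1, by rw [h6]; exact h3.2⟩) (by
      intro w hw
      exact (hg2 _ (hHD _ (hq'D w hw))).1) (by
      rintro w hw ⟨h1, h2⟩
      have h3 := (hg2 _ (hHD _ (hq'D w hw))).2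
      refine hclaim w hw 1 _ h1 h2 ?_
      rw [h3, Homeomorph.apply_symm_apply, map_one]
      simp [mob])
  refine ⟨?_, hl', ?_⟩
  · rw [← hM']
    linarith
  · intro w h1 h2
    obtain ⟨h3, h4⟩ := hlast w h1 h2
    rw [← hM']
    exact ⟨by linarith, by linarith⟩

end Pool.Agent.Helper80.QP
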